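import Pool.Agent.KDS.StmtsB
import Pool.Agent.Helper37_KDT.ZIML
import Pool.Agent.Helper37_KDT.ZJGA

set_option autoImplicit false

/-!
KDS, row DIV: halving over an algebraically closed field.

For a point `(a, b)` of the curve write `f = V ^ 2 + (X - a) U ^ 2` (induction on the degree, by the
identity `(V ^ 2 + Y U ^ 2) (r ^ 2 + Y) = (V r - Y U) ^ 2 + Y (V + r U) ^ 2`); then
`(X - a, y - b) (U, y - V) ^ 2 = (y - V)`.
-/

namespace Pool.Agent.KDS.H47

open Polynomial NumberField H58Q Pool.Agent.SZT Pool.Agent.KDT Pool.Agent.KDS Pool.Agent.KDT.Z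
  Pool.Agent.KDT.H37

lemma two_squares {E : Type} [Field E] [IsAlgClosed E] (a : E) : ∀ (n : ℕ) (f : E[X]),
    f.Monic → f.natDegree = n → ∃ U V : E[X], f = V ^ 2 + (X - C a) * U ^ 2 := by
  intro n
  induction n with
  | zero =>
    intro f hf h0
    refine ⟨0, 1, ?_⟩
    rw [hf.natDegree_eq_zero.1 h0]
    ring
  | succ n ih =>
    intro f hf hn
    have hdeg : f.degree ≠ 0 := by
      rw [degree_eq_natDegree hf.ne_zero, hn]
      exact_mod_cast Nat.succ_ne_zero n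
    obtain ⟨t, ht⟩ := IsAlgClosed.exists_root f hdeg
    obtain ⟨g, hg⟩ := dvd_iff_isRoot.2 ht
    have hgm : g.Monic := by
      apply (monic_X_sub_C t).of_mul_monic_left
      rw [← hg]
      exact hf
    have hgn : g.natDegree = n := by
      have h1 := (monic_X_sub_C t).natDegree_mul hgm
      rw [← hg, hn, natDegree_X_sub_C] at h1
      omega
    obtain ⟨U, V, hUV⟩ := ih g hgm hgn
    obtain ⟨r, hr⟩ := IsAlgClosed.exists_pow_nat_eq (a - t) (n := 2) (by norm_num)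
    refine ⟨V + C r * U, V * C r - (X - C a) * U, ?_⟩
    have h3 : (X - C t : E[X]) = C r ^ 2 + (X - C a) := by
      rw [← C_pow, hr, C_sub]
      ring
    rw [hg, hUV, h3]
    ring

/-- `(A₁, y - L) (A₂, y - L) = (A₁ A₂, y - L)` if `A₁ A₂` divides `L ^ 2 - f`. -/
lemma mul_gen {F : Type} [Field F] {f L A A' D : F[X]} (h2 : (2 : F) ≠ 0)
    (hf : Squarefree f) (h : L ^ 2 - f = A * A' * D) :
    MI f A L * MI f A' L = MI f (A * A') L := by
  apply le_antisymm
  · unfold MI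
    rw [Ideal.span_pair_mul_span_pair, Ideal.span_le, Set.insert_subset_iff,
      Set.insert_subset_iff, Set.insert_subset_iff, Set.singleton_subset_iff]
    refine ⟨?_, Ideal.mul_mem_left _ _ (Ideal.subset_span (by simp)),
      Ideal.mul_mem_right _ _ (Ideal.subset_span (by simp)),
      Ideal.mul_mem_left _ _ (Ideal.subset_span (by simp))⟩
    have h1 : (⟨A, 0⟩ : Q F f) * ⟨A', 0⟩ = ⟨A * A', 0⟩ := by
      apply QuadraticAlgebra.ext
      · simp only [QuadraticAlgebra.re_mul]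
        ring
      · simp only [QuadraticAlgebra.im_mul]
        ring
    rw [h1]
    exact Ideal.subset_span (by simp)
  · obtain ⟨a, b, d, hb⟩ := Iml.bezout (A := A) (A' := A' * D) (B := L) h2 hf
      (by rw [h]; ring)
    have hAA : (⟨A, 0⟩ : Q F f) * ⟨A', 0⟩ ∈ MI f A L * MI f A' L :=
      Ideal.mul_mem_mul (Ideal.subset_span (by simp)) (Ideal.subset_span (by simp))
    have hAy : (⟨A, 0⟩ : Q F f) * ⟨-L, 1⟩ ∈ MI f A L * MI f A' L :=
      Ideal.mul_mem_mul (Ideal.subset_span (by simp)) (Ideal.subset_span (by simp))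
    have hyA : (⟨-L, 1⟩ : Q F f) * ⟨A', 0⟩ ∈ MI f A L * MI f A' L :=
      Ideal.mul_mem_mul (Ideal.subset_span (by simp)) (Ideal.subset_span (by simp))
    have hyy : (⟨-L, 1⟩ : Q F f) * ⟨-L, 1⟩ ∈ MI f A L * MI f A' L :=
      Ideal.mul_mem_mul (Ideal.subset_span (by simp)) (Ideal.subset_span (by simp))
    have e1 : (⟨A * A', 0⟩ : Q F f) = ⟨A, 0⟩ * ⟨A', 0⟩ := by
      apply QuadraticAlgebra.ext
      · simp only [QuadraticAlgebra.re_mul]
        ring
      · simp only [QuadraticAlgebra.im_mul]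
        ring
    have h3 : (⟨-L, 1⟩ : Q F f) = ⟨a, 0⟩ * (⟨A, 0⟩ * ⟨-L, 1⟩) +
        (⟨b * D, 0⟩ * (⟨-L, 1⟩ * ⟨A', 0⟩) +
          (⟨-d, 0⟩ * (⟨-L, 1⟩ * ⟨-L, 1⟩) + ⟨-(d * D), 0⟩ * (⟨A, 0⟩ * ⟨A', 0⟩))) := by
      apply QuadraticAlgebra.ext
      · simp only [QuadraticAlgebra.re_mul, QuadraticAlgebra.im_mul, QuadraticAlgebra.re_add]
        linear_combination L * hb - d * h
      · simp only [QuadraticAlgebra.re_mul, QuadraticAlgebra.im_mul, QuadraticAlgebra.im_add]
        linear_combination -hb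
    rw [MI.eq_def f (A * A') L, Ideal.span_le, Set.insert_subset_iff, Set.singleton_subset_iff]
    refine ⟨?_, ?_⟩
    · rw [e1]
      exact hAA
    · rw [h3]
      exact Ideal.add_mem _ (Ideal.mul_mem_left _ _ hAy) (Ideal.add_mem _
        (Ideal.mul_mem_left _ _ hyA) (Ideal.add_mem _ (Ideal.mul_mem_left _ _ hyy)
          (Ideal.mul_mem_left _ _ hAA)))

lemma dvd_ev {F : Type} [Field F] (a : F) (L : F[X]) : (X - C a) ∣ L - C (L.eval a) := by
  rw [dvd_iff_isRoot, IsRoot.def]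
  simp

section cl

variable {E : Type} [Field E] [IsAlgClosed E] {f : E[X]} [Fact (Odd f.natDegree)]
  [IsDedekindDomain (Q E f)]

/-- the class of a point is a double. -/
lemma class_pt (h2 : (2 : E) ≠ 0) (hm : f.Monic) (hsf : Squarefree f) {a b : E}
    (hab : b ^ 2 = f.eval a) :
    ∃ c : Additive (ClassGroup (Q E f)), clI f (MI f (X - C a) (C b)) = c + c := by
  obtain ⟨U, V, hUV⟩ : ∃ U V : E[X], f = V ^ 2 + (X - C a) * U ^ 2 ∧ V.eval a = b := by
    obtain ⟨U, V, hUV⟩ := two_squares a _ f hm rfl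
    have h1 : (V.eval a) ^ 2 = b ^ 2 := by
      rw [hab]
      conv_rhs => rw [hUV]
      simp
    rcases sq_eq_sq_iff_eq_or_eq_neg.1 h1 with h3 | h3
    · exact ⟨U, V, hUV, h3⟩
    · refine ⟨U, -V, ?_, ?_⟩
      · rw [neg_sq]
        exact hUV
      · rw [eval_neg, h3, neg_neg]
  obtain ⟨hUV, hVa⟩ := hUV
  have e1 : V ^ 2 - f = (X - C a) * U * (-U) := by
    conv_lhs => rw [hUV]
    ring
  have e2 : V ^ 2 - f = C (-1) * (((X - C a) * U) * U) := by
    rw [e1, C_neg, C_1]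
    ring
  have h3 := mul_gen h2 hsf e1
  have h4 := Iml.mul_prin h2 hsf (neg_ne_zero.2 one_ne_zero) e2
  have h5 : MI f (X - C a) V = MI f (X - C a) (C b) := by
    apply Iml.mi_eq
    rw [← hVa]
    exact dvd_ev a V
  rw [h5] at h3
  have h6 : clI f (MI f ((X - C a) * U) V * MI f U V) = 0 := by
    rw [Jga.clI_zero f (mul_ne_zero (Jga.mi_ne f _ _) (Jga.mi_ne f _ _)), h4]
    exact ⟨⟨_, rfl⟩⟩
  rw [← h3, Jga.clI_mul f (mul_ne_zero (Jga.mi_ne f _ _) (Jga.mi_ne f _ _)) (Jga.mi_ne f _ _),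
    Jga.clI_mul f (Jga.mi_ne f _ _) (Jga.mi_ne f _ _)] at h6
  refine ⟨-clI f (MI f U V), ?_⟩
  have h7 : clI f (MI f (X - C a) (C b)) = -(clI f (MI f U V) + clI f (MI f U V)) := by
    rw [eq_neg_iff_add_eq_zero, ← add_assoc]
    exact h6
  rw [h7]
  abel

/-- every class of an ideal `(A, y - B)` is a double. -/
lemma class_all (h2 : (2 : E) ≠ 0) (hm : f.Monic) (hsf : Squarefree f) :
    ∀ (n : ℕ) (A B : E[X]), A.Monic → A.natDegree = n → A ∣ B ^ 2 - f →
      ∃ c : Additive (ClassGroup (Q E f)), clI f (MI f A B) = c + c := by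
  intro n
  induction n with
  | zero =>
    intro A B hA h0 _
    refine ⟨0, ?_⟩
    rw [hA.natDegree_eq_zero.1 h0, add_zero, Jga.clI_zero f (Jga.mi_ne f _ _)]
    have h3 : MI f (1 : E[X]) B = ⊤ := by
      rw [Ideal.eq_top_iff_one]
      exact Ideal.subset_span (by left; rfl)
    rw [h3]
    infer_instance
  | succ n ih =>
    intro A B hA hn hd
    have hdeg : A.degree ≠ 0 := by
      rw [degree_eq_natDegree hA.ne_zero, hn]
      exact_mod_cast Nat.succ_ne_zero n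
    obtain ⟨t, ht⟩ := IsAlgClosed.exists_root A hdeg
    obtain ⟨g, hg⟩ := dvd_iff_isRoot.2 ht
    have hgm : g.Monic := by
      apply (monic_X_sub_C t).of_mul_monic_left
      rw [← hg]
      exact hA
    have hgn : g.natDegree = n := by
      have h1 := (monic_X_sub_C t).natDegree_mul hgm
      rw [← hg, hn, natDegree_X_sub_C] at h1
      omega
    obtain ⟨D, hD⟩ := hd
    have hgd : g ∣ B ^ 2 - f := ⟨(X - C t) * D, by rw [hD, hg]; ring⟩
    obtain ⟨c1, hc1⟩ := ih g B hgm hgn hgd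
    have hab : (B.eval t) ^ 2 = f.eval t := by
      have h1 := congrArg (eval t) hD
      rw [hg] at h1
      simp only [eval_sub, eval_pow, eval_mul, eval_X, eval_C, sub_self, zero_mul] at h1
      exact sub_eq_zero.1 h1
    obtain ⟨c2, hc2⟩ := class_pt (f := f) h2 hm hsf hab
    have h3 : MI f (X - C t) B * MI f g B = MI f ((X - C t) * g) B :=
      mul_gen (D := D) h2 hsf (by rw [hD, hg])
    have h4 : MI f (X - C t) B = MI f (X - C t) (C (B.eval t)) := Iml.mi_eq (dvd_ev t B)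
    refine ⟨c2 + c1, ?_⟩
    rw [hg, ← h3, h4, Jga.clI_mul f (Jga.mi_ne f _ _) (Jga.mi_ne f _ _), hc1, hc2]
    abel

end cl

theorem div (hRex : Pool.Agent.SZT.RexStatement) (hDed : UBT.DedStmt) : DivStatement := by
  intro E _ _ f A' B' h2 hm h5 hsf hM' _
  have hodd : Fact (Odd f.natDegree) := ⟨by rw [h5]; decide⟩
  have hded : IsDedekindDomain (Q E f) := hDed E f h2 hsf
  obtain ⟨c, hc⟩ := class_all (f := f) h2 hm hsf _ A' B' hM'.monic rfl hM'.dvd
  obtain ⟨A, B, h, hM, hd, hcl⟩ := hRex E f h2 hsf h5 (Additive.toMul c)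
  refine ⟨A, B, hM, hd, ?_⟩
  have h6 : clI f (MI f A B) = c := by
    rw [Jga.clI_eq f (Jga.mi_ne f A B)]
    have : ClassGroup.mk0 ⟨MI f A B, Jga.mem_nzd f (Jga.mi_ne f A B)⟩ = Additive.toMul c := hcl
    rw [this]
    rfl
  apply Jga.clI_same f (Jga.mi_ne f _ _)
    (pow_ne_zero 2 (Jga.mi_ne f A B))
  rw [hc, pow_two, Jga.clI_mul f (Jga.mi_ne f _ _) (Jga.mi_ne f _ _), h6]

end Pool.Agent.KDS.H47
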