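import Pool.Agent.KDS.StmtsB

set_option autoImplicit false

/-!
KDS, row TKU: translation by a 2-torsion point in Kummer coordinates.
-/

namespace Pool.Agent.KDS.H47

open Polynomial NumberField H58Q Pool.Agent.SZT Pool.Agent.KDT Pool.Agent.KDS

lemma expl2 {K : Type} [Field K] {A : K[X]} (h : A.natDegree ≤ 2) :
    A = C (A.coeff 2) * X ^ 2 + C (A.coeff 1) * X + C (A.coeff 0) := by
  have h1 := A.as_sum_range_C_mul_X_pow' (n := 3) (by omega)
  rw [Finset.sum_range_succ, Finset.sum_range_succ, Finset.sum_range_succ,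
    Finset.sum_range_zero] at h1
  rw [pow_zero, pow_one, mul_one, zero_add] at h1
  calc A = _ := h1
    _ = _ := by ring

lemma expl5 {K : Type} [Field K] {f : K[X]} (hm : f.Monic) (h : f.natDegree = 5) :
    f = X ^ 5 + C (f.coeff 4) * X ^ 4 + C (f.coeff 3) * X ^ 3 + C (f.coeff 2) * X ^ 2
      + C (f.coeff 1) * X + C (f.coeff 0) := by
  have h1 := f.as_sum_range_C_mul_X_pow' (n := 6) (by omega)
  have h5 : f.coeff 5 = 1 := by
    have := hm.coeff_natDegree
    rw [h] at this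
    exact this
  rw [Finset.sum_range_succ, Finset.sum_range_succ, Finset.sum_range_succ,
    Finset.sum_range_succ, Finset.sum_range_succ, Finset.sum_range_succ,
    Finset.sum_range_zero, h5] at h1
  rw [pow_zero, pow_one, mul_one, zero_add, C_1] at h1
  calc f = _ := h1
    _ = _ := by ring

lemma coef4 {K : Type} [Field K] {c4 c3 c2 c1 c0 : K}
    (h : C c4 * X ^ 4 + C c3 * X ^ 3 + C c2 * X ^ 2 + C c1 * X + C c0 = (0 : K[X])) :
    c4 = 0 ∧ c3 = 0 ∧ c2 = 0 := by
  refine ⟨?_, ?_, ?_⟩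
  · have h := congrArg (fun p => coeff p 4) h
    simpa [coeff_X, coeff_C] using h
  · have h := congrArg (fun p => coeff p 3) h
    simpa [coeff_X, coeff_C] using h
  · have h := congrArg (fun p => coeff p 2) h
    simpa [coeff_X, coeff_C] using h

/-- the linear coefficient of `V` and of the Mumford pair. -/
lemma linc {K : Type} [Field K] {A B V : K[X]} (hA : A.Monic) (h2 : A.natDegree = 2)
    (hB : B.degree < A.degree) (hV : V.natDegree ≤ 2) (hd : A ∣ V - B) :
    V.coeff 1 - B.coeff 1 = V.coeff 2 * A.coeff 1 := by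
  have hA0 : A ≠ 0 := hA.ne_zero
  have hAd : A.degree = (2 : ℕ) := by rw [degree_eq_natDegree hA0, h2]
  have hA2 : A.coeff 2 = 1 := by
    have := hA.coeff_natDegree
    rw [h2] at this
    exact this
  rw [hAd, degree_lt_iff_coeff_zero] at hB
  have hR : V - B - C (V.coeff 2) * A = 0 := by
    apply eq_zero_of_dvd_of_degree_lt
      (dvd_sub hd (dvd_mul_left A (C (V.coeff 2))))
    rw [hAd, degree_lt_iff_coeff_zero]
    intro m hm
    rw [coeff_sub, coeff_sub, coeff_C_mul, hB m hm]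
    rcases Nat.lt_or_ge 2 m with h | h
    · have hAm : A.coeff m = 0 := coeff_eq_zero_of_natDegree_lt (by rw [h2]; exact h)
      have hVm : V.coeff m = 0 := coeff_eq_zero_of_natDegree_lt (lt_of_le_of_lt hV h)
      rw [hAm, hVm]
      ring
    · have : m = 2 := le_antisymm h hm
      subst this
      rw [hA2]
      ring
  have h1 := congrArg (fun p => coeff p 1) hR
  simp only [coeff_sub, coeff_C_mul, coeff_zero] at h1
  linear_combination h1

theorem tku : TkuStatement := by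
  intro K _ f A B A' B' V a _ hfm hf5 hM hA2 _ _ hT
  set f4 := f.coeff 4 with hf4
  set f3 := f.coeff 3 with hf3
  set f2 := f.coeff 2 with hf2
  set f1 := f.coeff 1 with hf1
  set f0 := f.coeff 0 with hf0
  set a1 := A.coeff 1 with ha1
  set a0 := A.coeff 0 with ha0
  set p1 := A'.coeff 1 with hp1
  set p0 := A'.coeff 0 with hp0
  set v2 := V.coeff 2 with hv2
  set v1 := V.coeff 1 with hv1
  set v0 := V.coeff 0 with hv0
  have hf := expl5 hfm hf5
  have hA := expl2 (le_of_eq hA2)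
  have hA' := expl2 (le_of_eq hT.two)
  have hV := expl2 hT.degV
  have hAc : A.coeff 2 = 1 := by
    have := hM.monic.coeff_natDegree
    rw [hA2] at this
    exact this
  have hAc' : A'.coeff 2 = 1 := by
    have := hT.mum.monic.coeff_natDegree
    rw [hT.two] at this
    exact this
  rw [hAc, C_1, one_mul] at hA
  rw [hAc', C_1, one_mul] at hA'
  rw [← hf4, ← hf3, ← hf2, ← hf1, ← hf0] at hf
  rw [← ha1, ← ha0] at hA
  rw [← hp1, ← hp0] at hA'
  rw [← hv2, ← hv1, ← hv0] at hV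
  have heq := hT.eq
  have hD : C (f4 - v2 ^ 2 - (a1 + p1 - a)) * X ^ 4
      + C (f3 - 2 * v1 * v2 - (a0 + p0 + a1 * p1 - a * (a1 + p1))) * X ^ 3
      + C (f2 - v1 ^ 2 - 2 * v2 * v0 - (a1 * p0 + a0 * p1 - a * (a0 + p0 + a1 * p1))) * X ^ 2
      + C (f1 - 2 * v1 * v0 - (a0 * p0 - a * (a1 * p0 + a0 * p1))) * X
      + C (f0 - v0 ^ 2 + a * a0 * p0) = 0 := by
    rw [hf, hA, hA', hV] at heq
    simp only [map_sub, map_add, map_mul, map_pow, map_ofNat]
    linear_combination heq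
  obtain ⟨e4, e3, e2⟩ := coef4 hD
  have eV : v2 * a ^ 2 + v1 * a + v0 = 0 := by
    have h := hT.ev
    rw [hV] at h
    simpa using h
  have eB : v1 - B.coeff 1 = v2 * a1 := linc hM.monic hA2 hM.deg hT.degV hT.dvd
  have eB' : v1 + B'.coeff 1 = v2 * p1 := by
    have hd : A' ∣ V - (-B') := by
      rw [sub_neg_eq_add]
      exact hT.dvd'
    have h := linc (B := -B') hT.mum.monic hT.two (by rw [degree_neg]; exact hT.mum.deg) hT.degV hd
    rw [coeff_neg, sub_neg_eq_add] at h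
    exact h
  have eA : A.eval a = a ^ 2 + a1 * a + a0 := by
    rw [hA]
    simp
  have eA' : A'.eval a = a ^ 2 + p1 * a + p0 := by
    rw [hA']
    simp
  have eder : (derivative f).eval a = 5 * a ^ 4 + 4 * f4 * a ^ 3 + 3 * f3 * a ^ 2 + 2 * f2 * a
      + f1 := by
    rw [hf]
    simp [derivative_pow]
    ring
  have eva := hT.eva
  rw [eA, eA', eder] at eva
  -- the fourth coordinates
  set k4 := (B.coeff 1) ^ 2 - (-a1) ^ 3 + (-a1) * a0 - f4 * (-a1) ^ 2 - f3 * (-a1) - f2 with hk4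
  set k4' := (B'.coeff 1) ^ 2 - (-p1) ^ 3 + (-p1) * p0 - f4 * (-p1) ^ 2 - f3 * (-p1) - f2
    with hk4'
  have hkum : kum f A B = ![1, -a1, a0, k4] := rfl
  have hkum' : kum f A' B' = ![1, -p1, p0, k4'] := rfl
  have eb : B.coeff 1 = v1 - v2 * a1 := by linear_combination -eB
  have eb' : B'.coeff 1 = -(v1 - v2 * p1) := by linear_combination eB'
  have hk : k4 = -(a ^ 2 + a1 * a + a0) * p1 + 2 * a ^ 2 * f4 + 2 * a ^ 3 + a * f3
      - a ^ 2 * a1 := by
    rw [hk4, eb]
    linear_combination (-2 * a ^ 2 - a1 ^ 2) * e4 + (a1 - a) * e3 - e2 - 2 * v2 * eV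
  have hk' : k4' = -(a ^ 2 + p1 * a + p0) * a1 + 2 * a ^ 2 * f4 + 2 * a ^ 3 + a * f3
      - a ^ 2 * p1 := by
    rw [hk4', eb']
    linear_combination (-2 * a ^ 2 - p1 ^ 2) * e4 + (p1 - a) * e3 - e2 - 2 * v2 * eV
  rw [hkum, hkum', eA]
  have hMT : MT f a ![1, -a1, a0, k4] =
      ![a ^ 2 * 1 - a * (-a1) + a0, mA f a * 1 - a ^ 2 * (-a1) + k4,
        mB f a * 1 - a ^ 2 * a0 + a * k4, mB f a * (-a1) - mA f a * a0 + a ^ 2 * k4] := rfl
  rw [hMT]
  have hmA : mA f a = -(2 * a ^ 3 + 2 * f4 * a ^ 2 + f3 * a) := rfl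
  have hmB : mB f a = 2 * a ^ 4 + 2 * f4 * a ^ 3 + 2 * f3 * a ^ 2 + 2 * f2 * a + f1 := rfl
  rw [hmA, hmB]
  funext l
  fin_cases l
  · simp only [Fin.zero_eta, Pi.smul_apply, smul_eq_mul, Matrix.cons_val_zero]
    ring
  · change (a ^ 2 + a1 * a + a0) * (-p1) = _
    change _ = -(2 * a ^ 3 + 2 * f4 * a ^ 2 + f3 * a) * 1 - a ^ 2 * (-a1) + k4
    rw [hk]
    ring
  · change (a ^ 2 + a1 * a + a0) * p0 = _
    change _ = (2 * a ^ 4 + 2 * f4 * a ^ 3 + 2 * f3 * a ^ 2 + 2 * f2 * a + f1) * 1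
      - a ^ 2 * a0 + a * k4
    rw [hk]
    linear_combination eva
  · change (a ^ 2 + a1 * a + a0) * k4' = _
    change _ = (2 * a ^ 4 + 2 * f4 * a ^ 3 + 2 * f3 * a ^ 2 + 2 * f2 * a + f1) * (-a1)
      - (-(2 * a ^ 3 + 2 * f4 * a ^ 2 + f3 * a)) * a0 + a ^ 2 * k4
    rw [hk, hk']
    linear_combination (-a1) * eva

end Pool.Agent.KDS.H47
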